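import Pool.Agent.H90.LC.Targets
import Pool.Agent.H22.MR.Cheb

set_option autoImplicit false

open Finset Pool.Agent.H44.MS Pool.Agent.H90.LC
open scoped ArithmeticFunction.vonMangoldt

namespace Pool.Agent.H30.LCL

theorem ran_exp {t : ℝ} (h0 : 0 ≤ t) (h1 : t ≤ 1) : Real.exp t - 1 ≤ 2 * t := by
  have h := Real.abs_exp_sub_one_sub_id_le (x := t) (by rw [abs_of_nonneg h0]; exact h1)
  have h2 := (le_abs_self _).trans h
  nlinarith

/-- the Mertens sum over a set of primes -/
theorem ran_sum {z : ℕ} (hz : 2 ≤ z) (P : Finset ℕ) (hP : ∀ p ∈ P, p.Prime ∧ p ≤ z) :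
    ∑ p ∈ P, Real.log p / p ≤ 10 * Real.log z := by
  have h1 : ∑ p ∈ P, Real.log p / p ≤ ∑ d ∈ Icc 1 z, Λ d / d := by
    have hsub : P ⊆ Icc 1 z := by
      intro p hp
      rw [mem_Icc]
      exact ⟨(hP p hp).1.one_lt.le, (hP p hp).2⟩
    calc ∑ p ∈ P, Real.log p / p = ∑ p ∈ P, Λ p / p := by
          refine sum_congr rfl fun p hp => ?_
          rw [ArithmeticFunction.vonMangoldt_apply_prime (hP p hp).1]
      _ ≤ _ := sum_le_sum_of_subset_of_nonneg hsub fun d _ _ =>
          div_nonneg ArithmeticFunction.vonMangoldt_nonneg (Nat.cast_nonneg _)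
  have h2 := Pool.Agent.H22.MR.mertens_le (n := z) (by omega)
  have h3 : Real.log 2 ≤ Real.log z := Real.log_le_log (by norm_num) (by exact_mod_cast hz)
  have h4 := Real.log_two_gt_d9
  linarith

theorem pf_RAN : T_RAN := by
  refine ⟨121, fun z P g hz hP => ?_⟩
  have hz0 : (0 : ℝ) < z := by
    have : 0 < z := by omega
    exact_mod_cast this
  have hL : 0 < Real.log z := by
    refine Real.log_pos ?_
    have : 1 < z := by omega
    exact_mod_cast this
  set L := Real.log z with hLdef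
  have hp1 : ∀ p ∈ P, (1 : ℝ) ≤ p := fun p hp => by
    exact_mod_cast (hP p hp).1.one_lt.le
  have hpow : ∀ p ∈ P, (p : ℝ) ^ (1 / L) = Real.exp (Real.log p / L) := by
    intro p hp
    rw [Real.rpow_def_of_pos (lt_of_lt_of_le one_pos (hp1 p hp)), mul_one_div]
  have hpe1 : ∀ p ∈ P, 1 ≤ (p : ℝ) ^ (1 / L) := fun p hp =>
    Real.one_le_rpow (hp1 p hp) (by positivity)
  have hpe2 : ∀ p ∈ P, (p : ℝ) ^ (1 / L) - 1 ≤ 2 * (Real.log p / L) := by
    intro p hp
    rw [hpow p hp]
    refine ran_exp (div_nonneg (Real.log_nonneg (hp1 p hp)) hL.le) ?_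
    rw [div_le_one hL]
    refine Real.log_le_log (lt_of_lt_of_le one_pos (hp1 p hp)) ?_
    exact_mod_cast (hP p hp).2.1
  -- Rankin
  have hR : ∀ T ∈ P.powerset, ic (z ^ 121 < ∏ p ∈ T, p) * ∏ p ∈ T, g p ≤
      Real.exp (-121) * ∏ p ∈ T, (g p * (p : ℝ) ^ (1 / L)) := by
    intro T hT
    rw [mem_powerset] at hT
    have hg0 : 0 ≤ ∏ p ∈ T, g p := prod_nonneg fun p hp => (hP p (hT hp)).2.2.1
    rw [prod_mul_distrib, mul_left_comm]
    have hprod : ∏ p ∈ T, (p : ℝ) ^ (1 / L) = (∏ p ∈ T, (p : ℝ)) ^ (1 / L) :=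
      Real.finset_prod_rpow T (fun p => (p : ℝ)) (fun p _ => Nat.cast_nonneg p) _
    have hic : ic (z ^ 121 < ∏ p ∈ T, p) ≤
        Real.exp (-121) * ∏ p ∈ T, (p : ℝ) ^ (1 / L) := by
      have hnn : 0 ≤ ∏ p ∈ T, (p : ℝ) ^ (1 / L) := prod_nonneg fun p _ => by positivity
      by_cases h : z ^ 121 < ∏ p ∈ T, p
      · rw [ic, if_pos h, hprod]
        have h1 : ((z : ℝ) ^ 121) ≤ ∏ p ∈ T, (p : ℝ) := by
          have : ((z ^ 121 : ℕ) : ℝ) ≤ ((∏ p ∈ T, p : ℕ) : ℝ) := by exact_mod_cast h.le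
          rw [Nat.cast_pow, Nat.cast_prod] at this
          exact this
        have h2 : ((z : ℝ) ^ 121) ^ (1 / L) = Real.exp 121 := by
          rw [← Real.rpow_natCast, ← Real.rpow_mul hz0.le, Real.rpow_def_of_pos hz0, ← hLdef]
          congr 1
          field_simp
          norm_num
        have h3 : Real.exp 121 ≤ (∏ p ∈ T, (p : ℝ)) ^ (1 / L) := by
          rw [← h2]
          exact Real.rpow_le_rpow (by positivity) h1 (by positivity)
        have h4 : Real.exp (-121) * Real.exp 121 = 1 := by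
          rw [← Real.exp_add]
          norm_num
        have h5 := mul_le_mul_of_nonneg_left h3 (Real.exp_pos (-121)).le
        linarith
      · rw [ic, if_neg h]
        positivity
    calc ic (z ^ 121 < ∏ p ∈ T, p) * ∏ p ∈ T, g p
        ≤ (Real.exp (-121) * ∏ p ∈ T, (p : ℝ) ^ (1 / L)) * ∏ p ∈ T, g p :=
          mul_le_mul_of_nonneg_right hic hg0
      _ = (∏ p ∈ T, g p) * (Real.exp (-121) * ∏ p ∈ T, (p : ℝ) ^ (1 / L)) := by ring
  have h1 := sum_le_sum hR
  rw [← mul_sum, ← prod_one_add] at h1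
  refine h1.trans ?_
  -- the product
  have h2 : ∏ p ∈ P, (1 + g p * (p : ℝ) ^ (1 / L)) ≤
      ∏ p ∈ P, ((1 + g p) * Real.exp (g p * ((p : ℝ) ^ (1 / L) - 1))) := by
    refine prod_le_prod (fun p hp => ?_) fun p hp => ?_
    · have := (hP p hp).2.2.1
      positivity
    · have hg := (hP p hp).2.2.1
      have h3 := Real.add_one_le_exp (g p * ((p : ℝ) ^ (1 / L) - 1))
      have h4 := hpe1 p hp
      have h5 : 0 ≤ g p * g p * ((p : ℝ) ^ (1 / L) - 1) := by
        have : 0 ≤ (p : ℝ) ^ (1 / L) - 1 := by linarith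
        positivity
      calc 1 + g p * (p : ℝ) ^ (1 / L)
          ≤ (1 + g p) * (g p * ((p : ℝ) ^ (1 / L) - 1) + 1) := by nlinarith
        _ ≤ _ := mul_le_mul_of_nonneg_left h3 (by linarith)
  rw [prod_mul_distrib, ← Real.exp_sum] at h2
  have h3 : ∑ p ∈ P, g p * ((p : ℝ) ^ (1 / L) - 1) ≤ 120 := by
    calc ∑ p ∈ P, g p * ((p : ℝ) ^ (1 / L) - 1)
        ≤ ∑ p ∈ P, (12 / L) * (Real.log p / p) := by
          refine sum_le_sum fun p hp => ?_
          have hg := (hP p hp).2.2.1
          have hg2 := (hP p hp).2.2.2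
          have h4 := hpe2 p hp
          have h5 := hpe1 p hp
          have hpp : (0 : ℝ) < p := lt_of_lt_of_le one_pos (hp1 p hp)
          calc g p * ((p : ℝ) ^ (1 / L) - 1) ≤ (6 / (p : ℝ)) * (2 * (Real.log p / L)) :=
                mul_le_mul hg2 h4 (by linarith) (by positivity)
            _ = (12 / L) * (Real.log p / p) := by
                field_simp
                ring
      _ = (12 / L) * ∑ p ∈ P, Real.log p / p := by rw [mul_sum]
      _ ≤ (12 / L) * (10 * L) := by
          refine mul_le_mul_of_nonneg_left ?_ (by positivity)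
          exact ran_sum hz P fun p hp => ⟨(hP p hp).1, (hP p hp).2.1⟩
      _ = 120 := by
          field_simp
          norm_num
  have hpos : 0 ≤ ∏ p ∈ P, (1 + g p) := prod_nonneg fun p hp => by
    have := (hP p hp).2.2.1
    linarith
  have h4 : Real.exp (∑ p ∈ P, g p * ((p : ℝ) ^ (1 / L) - 1)) ≤ Real.exp 120 :=
    Real.exp_le_exp.mpr h3
  calc Real.exp (-121) * ∏ p ∈ P, (1 + g p * (p : ℝ) ^ (1 / L))
      ≤ Real.exp (-121) * ((∏ p ∈ P, (1 + g p)) * Real.exp 120) := by
        refine mul_le_mul_of_nonneg_left ?_ (Real.exp_pos _).le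
        exact h2.trans (mul_le_mul_of_nonneg_left h4 hpos)
    _ = Real.exp (-1) * ∏ p ∈ P, (1 + g p) := by
        have h5 : Real.exp (-1) = Real.exp (-121) * Real.exp 120 := by
          rw [← Real.exp_add]
          norm_num
        rw [h5]
        ring
    _ ≤ (∏ p ∈ P, (1 + g p)) / 2 := by
        have h6 : Real.exp (-1) ≤ 1 / 2 := by
          rw [Real.exp_neg, ← one_div]
          refine one_div_le_one_div_of_le (by norm_num) ?_
          have := Real.add_one_le_exp (1 : ℝ)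
          linarith
        have := mul_le_mul_of_nonneg_right h6 hpos
        linarith

end Pool.Agent.H30.LCL
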